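import Pool.Agent.H222R3.EW.Upper

/-! The Euclidean window of the prime above `2` of `ℤ[√14]` is not `(√5, √7)`. -/

set_option autoImplicit false

open NumberField

namespace Pool.Agent.Results.MP_5e03f8_nt.WindowBound

open Pool.Agent.H222R3.EW

/-- For `K = ℚ(√14)` and `𝔭 = (2, √14)`: every `c` in the Euclidean window `w(𝔭)` is smaller
than `1129/500`, and hence `w(𝔭) ≠ (√5, √7)`. -/
theorem result (K : Type) [Field K] [NumberField K] (hK : Module.finrank ℚ K = 2)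
    (θ : 𝓞 K) (hθ : θ ^ 2 = 14) :
    (∀ c ∈ window (Ideal.span ({2, θ} : Set (𝓞 K))), c < 1129 / 500) ∧
      (∃ c ∈ Set.Ioo (Real.sqrt 5) (Real.sqrt 7),
        c ∉ window (Ideal.span ({2, θ} : Set (𝓞 K)))) ∧
      window (Ideal.span ({2, θ} : Set (𝓞 K))) ≠ Set.Ioo (Real.sqrt 5) (Real.sqrt 7) := by
  have h : ∀ c ∈ window (Ideal.span ({2, θ} : Set (𝓞 K))), c < 1129 / 500 := by
    intro c hc
    by_contra hh
    push Not at hh
    exact not_euclid hK θ hθ c hh hc.2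
  have h5 : Real.sqrt 5 < 5 / 2 := by
    rw [Real.sqrt_lt' (by norm_num)]
    norm_num
  have h7 : (5 / 2 : ℝ) < Real.sqrt 7 := by
    apply Real.lt_sqrt_of_sq_lt
    norm_num
  have hm : (5 / 2 : ℝ) ∉ window (Ideal.span ({2, θ} : Set (𝓞 K))) := by
    intro hc
    have := h _ hc
    norm_num at this
  refine ⟨h, ⟨5 / 2, ⟨h5, h7⟩, hm⟩, ?_⟩
  intro he
  rw [he] at hm
  exact hm ⟨h5, h7⟩

end Pool.Agent.Results.MP_5e03f8_nt.WindowBound
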