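import Pool.Agent.H222R3.EW.Field

/-! The Euclidean window of the prime above `2` of `ℤ[√14]` is nonempty. -/

set_option autoImplicit false

open NumberField

namespace Pool.Agent.Results.MP_5e03f8_nt.WindowNonempty

open Pool.Agent.H222R3.EW

/-- For `K = ℚ(√14)` (a number field of degree `2` with an integer `θ`, `θ² = 14`) and
`𝔭 = (2, √14)`, the Euclidean window `w(𝔭)` is nonempty; it contains `(√5, 56/25]`. -/
theorem result (K : Type) [Field K] [NumberField K] (hK : Module.finrank ℚ K = 2)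
    (θ : 𝓞 K) (hθ : θ ^ 2 = 14) :
    (window (Ideal.span ({2, θ} : Set (𝓞 K)))).Nonempty ∧
      Set.Ioc (Real.sqrt 5) (56 / 25) ⊆ window (Ideal.span ({2, θ} : Set (𝓞 K))) := by
  have h : Set.Ioc (Real.sqrt 5) (56 / 25) ⊆ window (Ideal.span ({2, θ} : Set (𝓞 K))) := by
    intro c hc
    exact ⟨lt_of_le_of_lt (Real.sqrt_nonneg 5) hc.1, euclid hK θ hθ c hc.1 hc.2⟩
  refine ⟨⟨56 / 25, h ⟨?_, le_refl _⟩⟩, h⟩
  rw [Real.sqrt_lt' (by norm_num)]
  norm_num

end Pool.Agent.Results.MP_5e03f8_nt.WindowNonempty
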